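import Pool.Agent.P.MP_947019_nt.Roots
import Pool.Agent.P.MP_3bc45c_nt.Smooth

/-! Counting the composite solutions. -/

open Finset Real Filter

namespace Pool.Agent.P.MP_947019_nt

open Pool.Agent.P.MP_3bc45c_nt (smoothUpTo mem_smoothUpTo card_smooth_le)

theorem S_le (m : ℕ) : S m ≤ 2 ^ (8 * m) := by
  have h1 : ∀ k : ℕ, 21 * k + 8 ≤ 8 * 4 ^ k := fun k => by
    induction k with
    | zero => simp
    | succ k ih =>
      have : 0 < 4 ^ k := by positivity
      rw [pow_succ]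
      omega
  induction m with
  | zero => simp [S]
  | succ m ih =>
    have h2 : m.centralBinom ≤ 4 ^ m := by
      rw [Nat.centralBinom_eq_two_mul_choose]
      exact (Nat.choose_le_two_pow _ _).trans (by rw [pow_mul]; norm_num)
    have h3 : (21 * m + 8) * m.centralBinom ^ 3 ≤ (8 * 4 ^ m) * (4 ^ m) ^ 3 :=
      Nat.mul_le_mul (h1 m) (Nat.pow_le_pow_left h2 3)
    have h4 : (8 * 4 ^ m) * (4 ^ m) ^ 3 = 8 * 2 ^ (8 * m) := by
      rw [show 2 ^ (8 * m) = (4 ^ m) ^ 4 by rw [← pow_mul, mul_comm m 4, pow_mul, pow_mul]; norm_num]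
      ring
    rw [S_succ, mul_add, pow_add]
    omega

theorem lt_S {m : ℕ} (h : 2 ≤ m) : 8 * m < S m := by
  induction m, h using Nat.le_induction with
  | base => decide
  | succ m _ ih =>
    have h1 : 0 < m.centralBinom ^ 3 := pow_pos (Nat.centralBinom_pos m) 3
    have h2 := Nat.mul_le_mul_left (21 * m + 8) h1
    rw [S_succ]
    omega

theorem card_pf {N k : ℕ} (h0 : 0 < N) (h : N ≤ 2 ^ k) : N.primeFactors.card ≤ k := by
  have h1 : 2 ^ N.primeFactors.card ≤ ∏ p ∈ N.primeFactors, p :=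
    pow_card_le_prod _ _ _ fun p hp => (Nat.prime_of_mem_primeFactors hp).two_le
  exact (Nat.pow_le_pow_iff_right one_lt_two).1
    (h1.trans ((Nat.le_of_dvd h0 (Nat.prod_primeFactors_dvd N)).trans h))

/-- The composite solutions up to `x`. -/
def W (x : ℕ) : Finset ℕ := (Icc 2 x).filter fun n => ¬ n.Prime ∧ S n ≡ 8 * n [MOD n ^ 2]

open Classical in
theorem card_W {L : ℕ} (hL : 2 ≤ L) (x : ℕ) :
    ((W x).card : ℝ) ≤ (smoothUpTo x (L ^ 4)).card + 8 * (L : ℝ) ^ 8 + x * (10 + 2 * log x) / L := by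
  set z := L ^ 4 with hz
  have hz2 : 2 * L ≤ z := by
    have : 2 ≤ L ^ 3 := hL.trans (Nat.le_self_pow (by norm_num) L)
    rw [hz, pow_succ]
    exact Nat.mul_le_mul_right L this
  set A : Finset ℕ := (Icc 2 z).biUnion fun m => (S m - 8 * m).primeFactors.image (· * m) with hA
  set P : Finset ℕ := (Ioc z (x / z)).filter Nat.Prime with hP
  set B : Finset ℕ := P.biUnion fun p =>
    ((range (x / p + 1)).filter fun m => (S m : ZMod p) = 8 * m ∧
      (m.centralBinom : ZMod p) ≠ 0).image (p * ·) with hB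
  have hsub : W x ⊆ smoothUpTo x z ∪ A ∪ B := by
    intro n hn
    simp only [W, mem_filter, mem_Icc] at hn
    obtain ⟨⟨h2, hx⟩, hnp, hc⟩ := hn
    by_cases hs : ∀ p : ℕ, p.Prime → p ∣ n → p ≤ z
    · exact mem_union_left _ (mem_union_left _ (mem_smoothUpTo.2 ⟨by omega, hx, hs⟩))
    push Not at hs
    obtain ⟨p, hp, ⟨m, rfl⟩, hzp⟩ := hs
    have := Fact.mk hp
    have hm : 2 ≤ m := by
      rcases m with _ | _ | m
      · simp at h2
      · simp [hp] at hnp
      · omega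
    have hg := reduce p (by omega) (by omega) hc
    by_cases hmz : m ≤ z
    · refine mem_union_left _ (mem_union_right _ (mem_biUnion.2 ⟨m, mem_Icc.2 ⟨hm, hmz⟩,
        mem_image.2 ⟨p, Nat.mem_primeFactors.2 ⟨hp, ?_, ?_⟩, rfl⟩⟩))
      · rw [← ZMod.natCast_eq_zero_iff, Nat.cast_sub (lt_S hm).le, hg.1]
        simp
      · have := lt_S hm
        omega
    · refine mem_union_right _ (mem_biUnion.2 ⟨p, mem_filter.2 ⟨mem_Ioc.2 ⟨hzp, ?_⟩, hp⟩,
        mem_image.2 ⟨m, mem_filter.2 ⟨mem_range.2 (Nat.lt_succ_of_le ?_), hg⟩, rfl⟩⟩)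
      · exact (Nat.le_div_iff_mul_le (by omega)).2
          ((Nat.mul_le_mul_left p (by omega)).trans hx)
      · exact (Nat.le_div_iff_mul_le hp.pos).2 (by rwa [mul_comm])
  have hAc : A.card ≤ 8 * L ^ 8 := by
    refine (card_biUnion_le_card_mul _ _ (8 * z) fun m hm => ?_).trans ?_
    · rw [mem_Icc] at hm
      have := lt_S hm.1
      exact card_image_le.trans ((card_pf (by omega) ((Nat.sub_le _ _).trans (S_le m))).trans
        (by omega))
    · rw [Nat.card_Icc]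
      exact (Nat.mul_le_mul_right _ (show z + 1 - 2 ≤ z by omega)).trans (le_of_eq (by ring))
  have hL0 : (0 : ℝ) < L := by exact_mod_cast (by omega : 0 < L)
  have hL2 : (2 : ℝ) ≤ L := by exact_mod_cast hL
  have hzR : (z : ℝ) = (L : ℝ) ^ 4 := by rw [hz]; push_cast; rfl
  have hx0 : (0 : ℝ) ≤ x := Nat.cast_nonneg x
  have hBc : (B.card : ℝ) ≤ ∑ p ∈ P, (2 * x / L * (p : ℝ)⁻¹ + 3 * (L : ℝ) ^ 3 * x * ((p : ℝ) ^ 2)⁻¹ +
      (2 + 3 * (L : ℝ) ^ 3)) := by
    refine (Nat.cast_le.2 card_biUnion_le).trans ?_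
    rw [Nat.cast_sum]
    refine sum_le_sum fun p hp => ?_
    simp only [hP, mem_filter, mem_Ioc] at hp
    have := Fact.mk hp.2
    have h1 := card_good p (L := L) (by omega) (by omega) (x / p)
    have hp0 : (0 : ℝ) < p := by exact_mod_cast hp.2.pos
    have h2 : ((x / p / L : ℕ) : ℝ) ≤ x / p / L :=
      Nat.cast_div_le.trans (div_le_div_of_nonneg_right Nat.cast_div_le hL0.le)
    have h3 : ((x / p / p : ℕ) : ℝ) ≤ x / p / p :=
      Nat.cast_div_le.trans (div_le_div_of_nonneg_right Nat.cast_div_le hp0.le)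
    have h4 : (((range (x / p + 1)).filter (Good p)).card : ℝ) ≤
        2 * ((x / p / L : ℕ) + 1) + 3 * (L : ℝ) ^ 3 * ((x / p / p : ℕ) + 1) := by
      exact_mod_cast h1
    refine (Nat.cast_le.2 card_image_le).trans (le_trans (le_of_eq ?_) (h4.trans ?_))
    · congr 2
      ext m
      simp only [mem_filter, Good]
    · refine le_trans (b := 2 * (x / p / L + 1) + 3 * (L : ℝ) ^ 3 * (x / p / p + 1)) (by gcongr)
        (le_of_eq ?_)
      field_simp
      ring
  have s1 : ∑ p ∈ P, (p : ℝ)⁻¹ ≤ 1 + log x := by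
    refine le_trans ?_ (harmonic_le_one_add_log x)
    rw [harmonic_eq_sum_Icc]
    push_cast
    refine sum_le_sum_of_subset_of_nonneg (fun p hp => ?_) fun _ _ _ => by positivity
    simp only [hP, mem_filter, mem_Ioc] at hp
    exact mem_Icc.2 ⟨hp.2.pos, hp.1.2.trans (Nat.div_le_self _ _)⟩
  have s2 : ∑ p ∈ P, ((p : ℝ) ^ 2)⁻¹ ≤ (z : ℝ)⁻¹ := by
    refine le_trans (sum_le_sum_of_subset_of_nonneg (t := Ioc z (z + x / z)) (fun p hp => ?_)
      fun _ _ _ => by positivity) ((sum_Ioc_inv_sq_le_sub (by omega) (Nat.le_add_right _ _)).trans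
        (sub_le_self _ (by positivity)))
    simp only [hP, mem_filter, mem_Ioc] at hp
    exact mem_Ioc.2 ⟨hp.1.1, hp.1.2.trans (Nat.le_add_left _ _)⟩
  have s3 : (P.card : ℝ) ≤ x / z := by
    refine le_trans (Nat.cast_le.2 ((card_filter_le _ _).trans ?_)) Nat.cast_div_le
    rw [Nat.card_Ioc]
    exact Nat.sub_le _ _
  rw [sum_add_distrib, sum_add_distrib, ← mul_sum, ← mul_sum, sum_const, nsmul_eq_mul] at hBc
  have hB2 : (B.card : ℝ) ≤ x * (10 + 2 * log x) / L := by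
    have h8 : (2 : ℝ) ≤ 2 * (L : ℝ) ^ 3 := by nlinarith [one_le_pow₀ (n := 3) (by linarith : (1 : ℝ) ≤ L)]
    refine hBc.trans (le_trans (b := 2 * x / L * (1 + log x) + 3 * (L : ℝ) ^ 3 * x * (z : ℝ)⁻¹ +
      x / z * (2 * (L : ℝ) ^ 3 + 3 * (L : ℝ) ^ 3)) (by gcongr) (le_of_eq ?_))
    rw [hzR]
    field_simp
    ring
  have h1 : ((W x).card : ℝ) ≤ (smoothUpTo x z).card + A.card + B.card := by
    exact_mod_cast (card_le_card hsub).trans ((card_union_le _ _).trans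
      (Nat.add_le_add_right (card_union_le _ _) _))
  have h2 : (A.card : ℝ) ≤ 8 * (L : ℝ) ^ 8 := by exact_mod_cast hAc
  linarith

theorem ev_sq (K : ℝ) {ε : ℝ} (hε : 0 < ε) : ∀ᶠ T : ℝ in atTop, K * T ^ 2 ≤ exp (ε * √T) := by
  have h := (tendsto_exp_mul_div_rpow_atTop 4 ε hε).comp tendsto_sqrt_atTop
  filter_upwards [h.eventually_ge_atTop K, eventually_gt_atTop 0] with T h1 h0
  have e : √T ^ (4 : ℝ) = T ^ 2 := by
    rw [show (4 : ℝ) = ((4 : ℕ) : ℝ) by norm_num, rpow_natCast, show 4 = 2 * 2 from rfl, pow_mul,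
      sq_sqrt h0.le]
  simp only [Function.comp, e] at h1
  exact (le_div_iff₀ (by positivity)).1 h1

theorem ev_rpow {ε : ℝ} (hε : 0 < ε) : ∀ᶠ T : ℝ in atTop, T ^ (0.49 : ℝ) ≤ ε * √T := by
  filter_upwards [(tendsto_rpow_atTop (y := 0.01) (by norm_num)).eventually_ge_atTop ε⁻¹,
    eventually_gt_atTop 0] with T h1 h0
  rw [sqrt_eq_rpow, show (1 / 2 : ℝ) = 0.01 + 0.49 by norm_num, rpow_add h0, ← mul_assoc]
  exact le_mul_of_one_le_left (by positivity) ((inv_le_iff_one_le_mul₀' hε).1 h1)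

theorem ev_s {ε : ℝ} (hε : 0 < ε) : ∀ᶠ T : ℝ in atTop, √(T * log T) ≤ ε * T := by
  filter_upwards [isLittleO_log_id_atTop.bound (c := ε ^ 2) (by positivity),
    eventually_gt_atTop 0] with T h1 h0
  rw [sqrt_le_left (by positivity)]
  have h2 : log T ≤ ε ^ 2 * T := (le_abs_self _).trans (by simpa [abs_of_pos h0] using h1)
  nlinarith

theorem main : ∀ᶠ x : ℕ in atTop,
    ((W x).card : ℝ) ≤ x * exp (-(1 / 3) * √(log x * log (log x))) := by
  obtain ⟨C, hC, hS⟩ := card_smooth_le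
  have hT : Tendsto (fun x : ℕ => log (x : ℝ)) atTop atTop :=
    tendsto_log_atTop.comp tendsto_natCast_atTop_atTop
  filter_upwards [hT.eventually (ev_sq (400 * C + 100) (ε := 1 / 120) (by norm_num)),
    hT.eventually (ev_rpow (ε := 1 / 3240) (by norm_num)),
    hT.eventually (ev_s (ε := 1 / 10) (by norm_num)), hT.eventually_ge_atTop 100,
    eventually_gt_atTop 0] with x e1 e2 e3 e4 e5
  have hx : (0 : ℝ) < x := by exact_mod_cast e5
  have hxe : (x : ℝ) = exp (log x) := (exp_log hx).symm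
  set T := log (x : ℝ) with hTd
  set s := √(T * log T) with hs
  have hT0 : 0 < T := by linarith
  have hl1 : 1 ≤ log T := by
    rw [le_log_iff_exp_le hT0]
    linarith [exp_one_lt_three]
  have hss : s ^ 2 = T * log T := sq_sqrt (by positivity)
  have hsT : √T ≤ s := sqrt_le_sqrt (by nlinarith)
  have h10 : 10 ≤ √T := le_sqrt_of_sq_le (by linarith)
  set L := ⌈exp (0.35 * s)⌉₊ with hL
  have hE : 2 ≤ exp (0.35 * s) := by linarith [add_one_le_exp (0.35 * s)]
  have hL1 : exp (0.35 * s) ≤ L := Nat.le_ceil _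
  have hL2 : (L : ℝ) ≤ 2 * exp (0.35 * s) := by
    have : (L : ℝ) < exp (0.35 * s) + 1 := Nat.ceil_lt_add_one (exp_pos (0.35 * s)).le
    linarith
  have hL3 : 2 ≤ L := by exact_mod_cast hE.trans hL1
  have hL0 : (0 : ℝ) < L := by linarith
  have hlogL : log L ≤ 0.7 + 0.35 * s := by
    have := log_le_log hL0 hL2
    rw [log_mul (by norm_num) (exp_pos _).ne', log_exp] at this
    linarith [log_two_lt_d9]
  have hlz : log ((L ^ 4 : ℕ) : ℝ) ≤ 2.8 + 1.4 * s := by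
    push_cast
    rw [log_pow]
    push_cast
    linarith
  have hz2 : 2 ≤ L ^ 4 := hL3.trans (Nat.le_self_pow (by norm_num) L)
  have hz0 : (0 : ℝ) < ((L ^ 4 : ℕ) : ℝ) := by positivity
  have hlz0 : 0 ≤ log ((L ^ 4 : ℕ) : ℝ) := log_natCast_nonneg _
  set η := 0.35 * s / T with hη
  have hη0 : 0 ≤ η := by positivity
  have hηT : η * T = 0.35 * s := div_mul_cancel₀ _ hT0.ne'
  have hη1 : η ≤ 1 / 4 := by
    rw [hη, div_le_iff₀ hT0]
    linarith
  have hzη : ((L ^ 4 : ℕ) : ℝ) ^ η ≤ 3 * T ^ (0.49 : ℝ) := by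
    rw [rpow_def_of_pos hz0, rpow_def_of_pos hT0]
    have h1 : log ((L ^ 4 : ℕ) : ℝ) * η ≤ 1 + log T * 0.49 := by
      have h2 : η * s = 0.35 * log T := by
        rw [hη, div_mul_eq_mul_div, div_eq_iff hT0.ne']
        linear_combination 0.35 * hss
      nlinarith [mul_le_mul_of_nonneg_right hlz hη0]
    refine (exp_le_exp.2 h1).trans ?_
    rw [exp_add]
    exact mul_le_mul_of_nonneg_right exp_one_lt_three.le (exp_pos _).le
  have hxη : (x : ℝ) ^ (1 - η) = x * exp (-(0.35 * s)) := by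
    rw [rpow_def_of_pos hx, ← hTd, mul_sub, mul_one, sub_eq_add_neg, exp_add, ← hxe, mul_comm T, hηT]
  have h1 := hS η x (L ^ 4) 2 hη0 hη1 hz2 le_rfl
  have h2 := card_W hL3 x
  rw [hxη] at h1
  set D := exp (-(1 / 3) * s) with hD
  have hD0 : 0 < D := exp_pos _
  have hd : exp (-(0.35 * s)) * exp (1 / 120 * s) * exp (1 / 120 * s) = D := by
    rw [← exp_add, ← exp_add]
    congr 1
    ring
  have hq : exp (1 / 120 * √T) ≤ exp (1 / 120 * s) := exp_le_exp.2 (by linarith)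
  have hq1 : 1 ≤ exp (1 / 120 * s) := one_le_exp (by linarith)
  have b1 : 2 + 8 * (L : ℝ) ^ 8 ≤ x * D / 2 := by
    have h3 : (L : ℝ) ^ 8 ≤ (2 * exp (0.35 * s)) ^ 8 := pow_le_pow_left₀ hL0.le hL2 8
    rw [mul_pow, ← exp_nat_mul] at h3
    have h4 : x * D = exp (T / 2) * exp (T / 2 - 1 / 3 * s) := by
      rw [hxe, hD, ← exp_add, ← exp_add]
      congr 1
      ring
    have h5 : exp (((8 : ℕ) : ℝ) * (0.35 * s)) ≤ exp (T / 2 - 1 / 3 * s) :=
      exp_le_exp.2 (by push_cast; linarith)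
    have h6 : 1 ≤ exp (T / 2 - 1 / 3 * s) := one_le_exp (by linarith)
    have h7 : 5000 ≤ exp (T / 2) := by
      have := pow_div_factorial_le_exp (T / 2) (by positivity) 3
      have h8 : (50 : ℝ) ^ 3 ≤ (T / 2) ^ 3 := pow_le_pow_left₀ (by norm_num) (by linarith) 3
      norm_num [Nat.factorial] at this h8
      linarith
    rw [h4]
    nlinarith
  have b2 : x * (10 + 2 * T) / L ≤ x * D / 4 := by
    have h3 : (L : ℝ)⁻¹ ≤ exp (-(0.35 * s)) := by
      rw [exp_neg]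
      exact inv_anti₀ (exp_pos _) hL1
    have h4 : 4 * (10 + 2 * T) ≤ exp (1 / 120 * s) := by nlinarith [mul_pos hC (pow_pos hT0 2)]
    have h5 : 4 * (10 + 2 * T) * (L : ℝ)⁻¹ ≤ D := by
      rw [← hd]
      calc 4 * (10 + 2 * T) * (L : ℝ)⁻¹ ≤ exp (1 / 120 * s) * exp (-(0.35 * s)) := by gcongr
        _ = exp (-(0.35 * s)) * exp (1 / 120 * s) * 1 := by ring
        _ ≤ _ := by gcongr
    rw [div_eq_mul_inv]
    nlinarith
  have b3 : C * (x * exp (-(0.35 * s)) * ((L ^ 4 : ℕ) : ℝ) ^ η * (log ((L ^ 4 : ℕ) : ℝ) *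
      exp (9 * ((L ^ 4 : ℕ) : ℝ) ^ η))) / log ((2 : ℕ) : ℝ) ≤ x * D / 4 := by
    have h3 : exp (9 * ((L ^ 4 : ℕ) : ℝ) ^ η) ≤ exp (1 / 120 * s) := exp_le_exp.2 (by linarith)
    have h4 : ((L ^ 4 : ℕ) : ℝ) ^ η ≤ T := by
      have : √T ≤ T := by nlinarith [sq_sqrt hT0.le]
      linarith
    have h5 : log ((L ^ 4 : ℕ) : ℝ) ≤ T := by linarith
    have h6 : 8 * C * T ^ 2 ≤ exp (1 / 120 * s) := by nlinarith [mul_pos hC (pow_pos hT0 2)]
    have h7 : (1 / 2 : ℝ) ≤ log ((2 : ℕ) : ℝ) := by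
      push_cast
      linarith [log_two_gt_d9]
    calc _ ≤ C * (x * exp (-(0.35 * s)) * T * (T * exp (1 / 120 * s))) / (1 / 2) := by gcongr
      _ = x * (exp (-(0.35 * s)) * (8 * C * T ^ 2) * exp (1 / 120 * s)) / 4 := by ring
      _ ≤ x * (exp (-(0.35 * s)) * exp (1 / 120 * s) * exp (1 / 120 * s)) / 4 := by gcongr
      _ = _ := by rw [hd]
  push_cast at h1 h2 b3
  linarith

end Pool.Agent.P.MP_947019_nt
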