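import Mathlib

namespace Pool.Agent.P.MP_947019_nt

/-- The sum of `(21 k + 8) * (2k choose k) ^ 3` over `0 ≤ k ≤ n - 1`. -/
def S (n : ℕ) : ℕ := ∑ k ∈ Finset.range n, (21 * k + 8) * Nat.choose (2 * k) k ^ 3

end Pool.Agent.P.MP_947019_nt
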