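import Pool.Agent.P.MP_947019_nt.Sun

/-! For a large prime `p` few `m` satisfy the reduced congruence modulo `p`. -/

open Finset Polynomial

namespace Pool.Agent.P.MP_947019_nt

noncomputable section

variable (p : ℕ) [hp : Fact p.Prime]

/-- Numerator times complementary denominator. -/
def nd (i H : ℕ) : (ZMod p)[X] :=
  (∏ j ∈ range i, (C 4 * X + C (4 * (j : ZMod p) + 2))) * ∏ j ∈ Ico i H, (X + C ((j : ZMod p) + 1))

/-- The cleared sum of `h` consecutive terms. -/
def PP (h H : ℕ) : (ZMod p)[X] :=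
  ∑ i ∈ range h, (C 21 * X + C (21 * (i : ZMod p) + 8)) * nd p i H ^ 3

/-- The eliminant of three solutions. -/
def QQ (h H : ℕ) : (ZMod p)[X] := C ((H : ZMod p) + 1) * PP p h H - C (h : ZMod p) * PP p (H + 1) H

theorem deg_nd {i H : ℕ} (h : i ≤ H) : (nd p i H).natDegree ≤ H := by
  refine natDegree_mul_le.trans ?_
  have h1 : (∏ j ∈ range i, (C 4 * X + C (4 * (j : ZMod p) + 2))).natDegree ≤ i :=
    (natDegree_prod_le _ _).trans ((sum_le_card_nsmul _ _ 1 fun j _ => natDegree_linear_le).trans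
      (by simp))
  have h2 : (∏ j ∈ Ico i H, (X + C ((j : ZMod p) + 1))).natDegree ≤ H - i :=
    (natDegree_prod_le _ _).trans ((sum_le_card_nsmul _ _ 1 fun j _ =>
      (natDegree_X_add_C _).le).trans (by simp))
  omega

theorem deg_PP {h H : ℕ} (e : h ≤ H + 1) : (PP p h H).natDegree ≤ 3 * H + 1 := by
  refine natDegree_sum_le_of_forall_le _ _ fun i hi => natDegree_mul_le.trans ?_
  have h1 := natDegree_linear_le (a := (21 : ZMod p)) (b := 21 * (i : ZMod p) + 8)
  have h2 := natDegree_pow_le (p := nd p i H) (n := 3)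
  have h3 := deg_nd p (i := i) (H := H) (by rw [mem_range] at hi; omega)
  omega

theorem deg_QQ {h H : ℕ} (e : h ≤ H) : (QQ p h H).natDegree ≤ 3 * H + 1 :=
  (natDegree_sub_le _ _).trans (max_le ((natDegree_C_mul_le _ _).trans (deg_PP p (by omega)))
    ((natDegree_C_mul_le _ _).trans (deg_PP p le_rfl)))

theorem cast_ne {a : ℕ} (h0 : 0 < a) (h : a < p) : (a : ZMod p) ≠ 0 := fun e =>
  absurd (Nat.le_of_dvd h0 ((ZMod.natCast_eq_zero_iff a p).1 e)) (by omega)

theorem QQ_ne {h H : ℕ} (h1 : 1 ≤ h) (e : h ≤ H) (hH : 2 * H < p) : QQ p h H ≠ 0 := by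
  intro h0
  have z : ∀ i < H, (nd p i H).eval (-(H : ZMod p)) = 0 := fun i hi => by
    obtain ⟨G, rfl⟩ : ∃ G, H = G + 1 := ⟨H - 1, by omega⟩
    rw [nd, eval_mul, eval_prod (Ico i (G + 1)),
      prod_eq_zero (i := G) (mem_Ico.2 ⟨by omega, by omega⟩) (by simp), mul_zero]
  have z1 : ∀ g ≤ H, (PP p g H).eval (-(H : ZMod p)) = 0 := fun g hg => by
    rw [PP, eval_finsetSum]
    refine sum_eq_zero fun i hi => ?_
    rw [eval_mul, eval_pow, z i (by rw [mem_range] at hi; omega)]
    simp
  have two : (2 : ZMod p) ≠ 0 := by exact_mod_cast cast_ne p two_pos (by omega)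
  have z2 : (nd p H H).eval (-(H : ZMod p)) ≠ 0 := by
    rw [nd, Ico_self, prod_empty, mul_one, eval_prod]
    refine prod_ne_zero_iff.2 fun j hj => ?_
    rw [mem_range] at hj
    obtain ⟨d, rfl⟩ : ∃ d, H = j + 1 + d := ⟨H - (j + 1), by omega⟩
    have h3 := cast_ne p (a := 2 * d + 1) (by omega) (by omega)
    intro e
    apply mul_ne_zero two h3
    simp only [eval_add, eval_mul, eval_C, eval_X] at e
    push_cast at e ⊢
    linear_combination -e
  have z3 : PP p (H + 1) H = PP p H H + (C 21 * X + C (21 * (H : ZMod p) + 8)) * nd p H H ^ 3 :=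
    sum_range_succ _ _
  have h4 := congrArg (eval (-(H : ZMod p))) h0
  rw [QQ, z3] at h4
  simp only [eval_sub, eval_add, eval_mul, eval_C, eval_X, eval_pow, eval_zero, z1 h e,
    z1 H le_rfl] at h4
  apply mul_ne_zero (mul_ne_zero (cast_ne p (a := h) h1 (by omega)) (pow_ne_zero 3 two))
    (pow_ne_zero 3 z2)
  linear_combination -h4

theorem cb_shift (m i : ℕ) : ((m + i).centralBinom : ZMod p) * ∏ j ∈ range i, ((m : ZMod p) + (j + 1)) =
    m.centralBinom * ∏ j ∈ range i, (4 * (m : ZMod p) + (4 * j + 2)) := by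
  induction i with
  | zero => simp
  | succ i ih =>
    have h := congrArg (Nat.cast : ℕ → ZMod p) (Nat.succ_mul_centralBinom_succ (m + i))
    rw [prod_range_succ, prod_range_succ, ← add_assoc]
    push_cast at h
    linear_combination (∏ j ∈ range i, ((m : ZMod p) + (j + 1))) * h +
      (4 * (m : ZMod p) + (4 * i + 2)) * ih

theorem S_add (m h : ℕ) :
    S (m + h) = S m + ∑ i ∈ range h, (21 * (m + i) + 8) * (m + i).centralBinom ^ 3 := by
  induction h with
  | zero => simp
  | succ h ih => rw [← add_assoc, S_succ, ih, sum_range_succ, add_assoc]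

theorem eval_PP (m : ℕ) {h H : ℕ} (e : h ≤ H + 1) :
    (m.centralBinom : ZMod p) ^ 3 * (PP p h H).eval (m : ZMod p) =
      (∏ j ∈ range H, ((m : ZMod p) + (j + 1))) ^ 3 * (S (m + h) - S m) := by
  rw [S_add, PP, eval_finsetSum]
  push_cast
  rw [add_sub_cancel_left, mul_sum, mul_sum]
  refine sum_congr rfl fun i hi => ?_
  rw [mem_range] at hi
  have h1 := cb_shift p m i
  rw [← prod_range_mul_prod_Ico _ (show i ≤ H by omega)]
  simp only [nd, eval_mul, eval_add, eval_pow, eval_prod, eval_C, eval_X]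
  generalize ∏ j ∈ range i, ((m : ZMod p) + (j + 1)) = a at *
  generalize ∏ j ∈ range i, (4 * (m : ZMod p) + (4 * j + 2)) = b at *
  generalize ∏ j ∈ Ico i H, ((m : ZMod p) + (j + 1)) = d at *
  have h2 := congrArg (· ^ 3) h1
  linear_combination (-(21 * ((m : ZMod p) + i) + 8) * d ^ 3) * h2

/-- The reduced congruence. -/
def Good (m : ℕ) : Prop := (S m : ZMod p) = 8 * m ∧ (m.centralBinom : ZMod p) ≠ 0

theorem root_QQ {m h H : ℕ} (e : h ≤ H) (g0 : Good p m) (g1 : Good p (m + h))
    (g2 : Good p (m + (H + 1))) : (QQ p h H).eval (m : ZMod p) = 0 := by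
  have h1 := eval_PP p m (h := h) (H := H) (by omega)
  have h2 := eval_PP p m (h := H + 1) (H := H) le_rfl
  rw [g0.1, g1.1] at h1
  rw [g0.1, g2.1] at h2
  refine mul_left_cancel₀ (pow_ne_zero 3 g0.2) ?_
  simp only [QQ, eval_sub, eval_mul, eval_C]
  push_cast at h1 h2
  linear_combination ((H : ZMod p) + 1) * h1 - (h : ZMod p) * h2

open Classical in
theorem card_good {L : ℕ} (hL : 0 < L) (hLp : 2 * L ≤ p) (M : ℕ) :
    ((range (M + 1)).filter (Good p)).card ≤ 2 * (M / L + 1) + 3 * L ^ 3 * (M / p + 1) := by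
  set R : Finset (ZMod p) := (range L ×ˢ range L).biUnion fun q =>
    if 1 ≤ q.1 ∧ q.1 ≤ q.2 then (QQ p q.1 q.2).roots.toFinset else ∅ with hR
  have hRc : R.card ≤ 3 * L ^ 3 := by
    refine (card_biUnion_le_card_mul _ _ (3 * L) fun q hq => ?_).trans (le_of_eq ?_)
    · rw [mem_product, mem_range, mem_range] at hq
      split_ifs with h
      · have := deg_QQ p h.2
        have := (Multiset.toFinset_card_le _).trans (card_roots' (QQ p q.1 q.2))
        omega
      · simp
    · simp only [card_product, card_range]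
      ring
  set G := (range (M + 1)).filter (Good p) with hG
  rw [← card_filter_add_card_filter_not (fun m : ℕ => (m : ZMod p) ∈ R), add_comm]
  refine add_le_add ?_ ?_
  · refine (card_le_mul_card_image (f := fun m => m / L) _ 2 fun a _ => ?_).trans
      (Nat.mul_le_mul_left 2 ?_)
    · by_contra hc
      have key : ∀ x y z : ℕ, x < y → y < z → x / L = z / L → Good p x → Good p y → Good p z →
          (x : ZMod p) ∈ R := by
        intro x y z hxy hyz hq gx gy gz
        have hz : z - x < L := by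
          have e1 := Nat.div_add_mod x L
          have e2 := Nat.div_add_mod z L
          have e3 := Nat.mod_lt z hL
          rw [hq] at e1
          omega
        obtain ⟨h, rfl⟩ : ∃ h, y = x + h := ⟨y - x, by omega⟩
        obtain ⟨H, rfl⟩ : ∃ H, z = x + (H + 1) := ⟨z - x - 1, by omega⟩
        refine mem_biUnion.2 ⟨(h, H), mem_product.2 ⟨mem_range.2 (by omega), mem_range.2 (by omega)⟩,
          ?_⟩
        rw [if_pos ⟨by omega, by omega⟩, Multiset.mem_toFinset,
          mem_roots (QQ_ne p (by omega) (by omega) (by omega))]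
        exact root_QQ p (by omega) gx gy gz
      obtain ⟨x, y, z, hx, hy, hz, hxy, hxz, hyz⟩ := two_lt_card_iff.1 (not_le.1 hc)
      simp only [hG, mem_filter] at hx hy hz
      have e1 : x / L = y / L := hx.2.trans hy.2.symm
      have e2 : x / L = z / L := hx.2.trans hz.2.symm
      have e3 : y / L = z / L := hy.2.trans hz.2.symm
      rcases lt_or_gt_of_ne hxy with a1 | a1 <;> rcases lt_or_gt_of_ne hxz with a2 | a2 <;>
        rcases lt_or_gt_of_ne hyz with a3 | a3
      · exact hx.1.2 (key x y z a1 a3 e2 hx.1.1.2 hy.1.1.2 hz.1.1.2)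
      · exact hx.1.2 (key x z y a2 a3 e1 hx.1.1.2 hz.1.1.2 hy.1.1.2)
      · omega
      · exact hz.1.2 (key z x y a2 a1 e3.symm hz.1.1.2 hx.1.1.2 hy.1.1.2)
      · exact hy.1.2 (key y x z a1 a2 e3 hy.1.1.2 hx.1.1.2 hz.1.1.2)
      · omega
      · exact hy.1.2 (key y z x a3 a2 e1.symm hy.1.1.2 hz.1.1.2 hx.1.1.2)
      · exact hz.1.2 (key z y x a3 a1 e2.symm hz.1.1.2 hy.1.1.2 hx.1.1.2)
    · refine (card_le_card (t := range (M / L + 1)) fun a ha => ?_).trans (card_range _).le
      obtain ⟨m, hm, rfl⟩ := mem_image.1 ha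
      simp only [hG, mem_filter, mem_range] at hm
      exact mem_range.2 (Nat.lt_succ_of_le (Nat.div_le_div_right (by omega)))
  · refine (card_le_card_of_injOn (t := R ×ˢ range (M / p + 1))
      (fun m : ℕ => ((m : ZMod p), m / p)) (fun m hm => ?_) fun m _ m' _ e => ?_).trans ?_
    · simp only [hG, coe_filter, mem_filter, mem_range, Set.mem_ofPred_eq] at hm
      exact mem_coe.2 (mem_product.2 ⟨hm.2, mem_range.2
        (Nat.lt_succ_of_le (Nat.div_le_div_right (by omega)))⟩)
    · have e1 : m % p = m' % p := (ZMod.natCast_eq_natCast_iff' _ _ _).1 (congrArg Prod.fst e)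
      have e2 : m / p = m' / p := congrArg Prod.snd e
      rw [← Nat.div_add_mod m p, ← Nat.div_add_mod m' p, e1, e2]
    · rw [card_product, card_range]
      exact Nat.mul_le_mul_right _ hRc

end

end Pool.Agent.P.MP_947019_nt
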