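import Pool.Agent.P.MP_947019_nt.Defs

/-! The closed form of the sum and the reduction from `p * m` to `m` modulo `p`. -/

open Finset

namespace Pool.Agent.P.MP_947019_nt

theorem wz (a K : ℕ) : ∑ k ∈ range (K + 1), (8 * (2 * a + 3) * ((a + 1 + k).choose k : ℤ) ^ 2 -
    4 * (a + 1) * ((a + k).choose k : ℤ) ^ 2) =
      (8 * K + 8 + 12 * (a + 1)) * ((a + 1 + K).choose K : ℤ) ^ 2 := by
  induction K with
  | zero => simp; ring
  | succ K ih =>
    rw [sum_range_succ, ih]
    have h1 : (a + 1 + (K + 1)).choose (K + 1) =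
        (a + 1 + K).choose K + (a + 1 + K).choose (K + 1) := Nat.choose_succ_succ' _ _
    have h2 : (a + 1 + K).choose (K + 1) * (K + 1) = (a + 1 + K).choose K * (a + 1) := by
      rw [Nat.choose_succ_right_eq, Nat.add_sub_cancel]
    have h3 : a + (K + 1) = a + 1 + K := by ring
    rw [h1, h3]
    have h4 : ((a + 1 + K).choose (K + 1) : ℤ) * (K + 1) = (a + 1 + K).choose K * (a + 1) := by
      exact_mod_cast h2
    push_cast
    linear_combination (-8 * (2 * ((a + 1 + K).choose K : ℤ) + (a + 1 + K).choose (K + 1))) * h4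

/-- The inner sum. -/
def T (n : ℕ) : ℕ := ∑ k ∈ range n, (n + k - 1).choose k ^ 2

theorem T_succ (a : ℕ) : T (a + 1) = ∑ k ∈ range (a + 1), (a + k).choose k ^ 2 :=
  sum_congr rfl fun k _ => by rw [show a + 1 + k - 1 = a + k by omega]

theorem S_succ (n : ℕ) : S (n + 1) = S n + (21 * n + 8) * n.centralBinom ^ 3 := by
  rw [S, sum_range_succ, Nat.centralBinom_eq_two_mul_choose]
  rfl

theorem sun (n : ℕ) : S n = 4 * n * n.centralBinom * T n := by
  induction n with
  | zero => simp [S]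
  | succ n ih =>
    rcases n with _ | a
    · decide
    rw [S_succ, ih, T_succ (a + 1), T_succ a, sum_range_succ _ (a + 1)]
    have h1 := wz a a
    rw [sum_sub_distrib, ← mul_sum, ← mul_sum] at h1
    have h2 := Nat.succ_mul_centralBinom_succ (a + 1)
    have h3 : (a + 1).centralBinom = 2 * (a + 1 + a).choose a := by
      rw [Nat.centralBinom_eq_two_mul_choose, show 2 * (a + 1) = (a + 1 + a) + 1 by ring,
        Nat.choose_succ_succ', two_mul]
      congr 1
      exact Nat.choose_symm_add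
    have h4 : (a + 1 + (a + 1)).choose (a + 1) = (a + 1).centralBinom := by
      rw [Nat.centralBinom_eq_two_mul_choose, two_mul]
    rw [h4]
    zify at h2 h3 ⊢
    generalize ((a + 1).centralBinom : ℤ) = c at *
    generalize ((a + 1 + 1).centralBinom : ℤ) = c' at *
    generalize ((a + 1 + a).choose a : ℤ) = u at *
    generalize ∑ k ∈ range (a + 1), ((a + 1 + k).choose k : ℤ) ^ 2 = A at *
    generalize ∑ k ∈ range (a + 1), ((a + k).choose k : ℤ) ^ 2 = B at *
    subst h3
    linear_combination (-4 * (A + (2 * u) ^ 2)) * h2 - 2 * u * h1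

theorem sum_blocks {M : Type*} [AddCommMonoid M] (f : ℕ → M) (p J : ℕ) :
    ∑ k ∈ range (p * J), f k = ∑ j ∈ range J, ∑ r ∈ range p, f (p * j + r) := by
  induction J with
  | zero => simp
  | succ J ih => rw [Nat.mul_succ, sum_range_add, ih, sum_range_succ]

theorem lucas (p : ℕ) [Fact p.Prime] (a b : ℕ) {r s : ℕ} (hr : r < p) (hs : s < p) :
    (((p * a + r).choose (p * b + s) : ℕ) : ZMod p) = r.choose s * a.choose b := by
  have h := (ZMod.natCast_eq_natCast_iff _ _ _).2
    (Choose.choose_modEq_choose_mod_mul_choose_div_nat (n := p * a + r) (k := p * b + s) (p := p))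
  have hp : 0 < p := by omega
  rw [Nat.mul_add_mod, Nat.mul_add_mod, Nat.mod_eq_of_lt hr, Nat.mod_eq_of_lt hs,
    Nat.mul_add_div hp, Nat.mul_add_div hp, Nat.div_eq_of_lt hr, Nat.div_eq_of_lt hs] at h
  simpa using h

theorem T_mul (p : ℕ) [hp : Fact p.Prime] (b : ℕ) :
    (T (p * (b + 1)) : ZMod p) = T (b + 1) := by
  obtain ⟨q, rfl⟩ : ∃ q, p = q + 1 := ⟨p - 1, by have := hp.out.pos; omega⟩
  rw [T, T, sum_blocks]
  push_cast
  refine sum_congr rfl fun j _ => ?_
  rw [sum_range_succ', sum_eq_zero, zero_add]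
  · rw [show (q + 1) * (b + 1) + ((q + 1) * j + 0) - 1 = (q + 1) * (b + j) + q by
      rw [Nat.sub_eq_iff_eq_add (by nlinarith)]; ring, lucas (q + 1) _ _ (by omega) (by omega),
      show b + 1 + j - 1 = b + j by omega]
    simp
  · intro r hr
    rw [mem_range] at hr
    rw [show (q + 1) * (b + 1) + ((q + 1) * j + (r + 1)) - 1 = (q + 1) * (b + 1 + j) + r by
      rw [Nat.sub_eq_iff_eq_add (by nlinarith)]; ring, lucas (q + 1) _ _ (by omega) (by omega)]
    simp

theorem reduce (p : ℕ) [hp : Fact p.Prime] (h2 : p ≠ 2) {m : ℕ} (hm : 0 < m)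
    (h : S (p * m) ≡ 8 * (p * m) [MOD (p * m) ^ 2]) :
    (S m : ZMod p) = 8 * m ∧ (m.centralBinom : ZMod p) ≠ 0 := by
  obtain ⟨b, rfl⟩ : ∃ b, m = b + 1 := ⟨m - 1, by omega⟩
  have hp0 := hp.out.pos
  have h1 : 4 * ((p * (b + 1)).centralBinom * T (p * (b + 1))) ≡ 8 [MOD p * (b + 1)] := by
    rw [sun, sq] at h
    refine Nat.ModEq.mul_right_cancel' (c := p * (b + 1)) (by positivity) ?_
    convert h using 1
    ring
  have h3 := (ZMod.natCast_eq_natCast_iff _ _ _).2 (h1.of_mul_right (b + 1))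
  have h4 : ((p * (b + 1)).centralBinom : ZMod p) = (b + 1).centralBinom := by
    have := lucas p (2 * (b + 1)) (b + 1) hp0 hp0
    rw [Nat.centralBinom_eq_two_mul_choose, Nat.centralBinom_eq_two_mul_choose,
      show 2 * (p * (b + 1)) = p * (2 * (b + 1)) by ring]
    simpa using this
  push_cast at h3
  rw [h4, T_mul] at h3
  have h5 : (2 : ZMod p) ≠ 0 := fun e => h2 ((Nat.prime_dvd_prime_iff_eq hp.out Nat.prime_two).1
    ((ZMod.natCast_eq_zero_iff 2 p).1 (by exact_mod_cast e)))
  refine ⟨?_, fun e => ?_⟩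
  · rw [sun]
    push_cast
    linear_combination ((b : ZMod p) + 1) * h3
  · rw [e] at h3
    apply pow_ne_zero 3 h5
    linear_combination -h3

end Pool.Agent.P.MP_947019_nt
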